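import Pool.Agent.H979.FC.Fin

/-!
# Continuity and strict monotonicity of the critical curves of the frog model with death

The definitions of the model (`ball`, `Transitive`, `path`, `visits`, `Visited`, `stepLaw`,
`choiceLaw`, `clockLaw`, `partLaw`, `law`) are in `Pool/Agent/H979/FR/Defs.lean`.
-/

set_option autoImplicit false

open MeasureTheory ProbabilityTheory
open scoped ENNReal NNReal

namespace Pool.Agent.Results.MP_c9ff92_pr.CriticalCurves

open Pool.Agent.H979.FR Pool.Agent.H979.FC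

variable {V : Type}

/-- The event `o → ∞`: for every `n` a directed path leads from `o` to a vertex outside the ball
`B(o, n)`. -/
def ToInfinity (G : SimpleGraph V) (t : ℝ) (o : V) : Set (Conf V) :=
  {ω | ∀ n : ℕ, ∃ y, Visited t ω o y ∧ y ∉ ball G o n}

/-- The critical density `λ_c(t) = sup {λ ≥ 0 : P_{λ,t}(o → ∞) = 0}`, in `[0, ∞]`. -/
noncomputable def lambdaC [MeasurableSpace V] [DiscreteMeasurableSpace V] (G : SimpleGraph V)
    [G.LocallyFinite] (o : V) (t : ℝ≥0) : ℝ≥0∞ :=
  ⨆ (lam : ℝ≥0) (_ : law G lam (ToInfinity G (t : ℝ) o) = 0), (lam : ℝ≥0∞)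

/-- The critical lifetime `t_c(λ) = sup {t ≥ 0 : P_{λ,t}(o → ∞) = 0}`, in `[0, ∞]`. -/
noncomputable def timeC [MeasurableSpace V] [DiscreteMeasurableSpace V] (G : SimpleGraph V)
    [G.LocallyFinite] (o : V) (lam : ℝ≥0) : ℝ≥0∞ :=
  ⨆ (t : ℝ≥0) (_ : law G lam (ToInfinity G (t : ℝ) o) = 0), (t : ℝ≥0∞)

/-- On a connected locally finite graph `o → ∞` iff infinitely many vertices are visited. -/
theorem toInfinity_eq (G : SimpleGraph V) [G.LocallyFinite] (hconn : G.Connected) (t : ℝ) (o : V) :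
    ToInfinity G t o = Survives t o := by
  ext ω
  constructor
  · intro h hfin
    change {y | Visited t ω o y}.Finite at hfin
    obtain ⟨N, hN⟩ : ∃ N : ℕ, ∀ y ∈ {y | Visited t ω o y}, G.dist o y ≤ N := by
      obtain ⟨N, hN⟩ := (hfin.image (fun y => G.dist o y)).bddAbove
      exact ⟨N, fun y hy => hN ⟨y, hy, rfl⟩⟩
    obtain ⟨y, hy, hyN⟩ := h N
    exact hyN (hN y hy)
  · intro h n
    by_contra hcon
    push Not at hcon
    exact h (((pBALL V G hconn).1 o n).subset fun y hy => hcon y hy)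

/-- **Continuity and strict monotonicity of the critical curves (Q1, answer yes).** Let `G` be an
infinite, connected, locally finite, vertex-transitive graph of superlinear growth. Then
`λ ↦ t_c(λ)` and `t ↦ λ_c(t)` take values in `(0, ∞)`, are continuous and strictly decreasing on
`(0, ∞)`. -/
theorem result (V : Type) [Infinite V] [MeasurableSpace V] [DiscreteMeasurableSpace V]
    (G : SimpleGraph V) [G.LocallyFinite] (hconn : G.Connected) (htrans : Transitive G)
    (o : V) (hgrowth : ∀ C : ℝ, ∃ n : ℕ, 1 ≤ n ∧ C * n < ((ball G o n).ncard : ℝ)) :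
    (∀ t : ℝ≥0, 0 < t → 0 < lambdaC G o t ∧ lambdaC G o t < ⊤) ∧
    ContinuousOn (fun t : ℝ≥0 => lambdaC G o t) (Set.Ioi 0) ∧
    StrictAntiOn (fun t : ℝ≥0 => lambdaC G o t) (Set.Ioi 0) ∧
    (∀ lam : ℝ≥0, 0 < lam → 0 < timeC G o lam ∧ timeC G o lam < ⊤) ∧
    ContinuousOn (fun lam : ℝ≥0 => timeC G o lam) (Set.Ioi 0) ∧
    StrictAntiOn (fun lam : ℝ≥0 => timeC G o lam) (Set.Ioi 0) := by
  have hL : ¬ LinearGrowth G o := by
    rintro ⟨C, hC⟩
    obtain ⟨n, hn, h⟩ := hgrowth C
    exact absurd (hC n hn) (not_le.2 h)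
  have e1 : lambdaC G o = lc G o := by
    funext t
    unfold lambdaC lc
    rw [toInfinity_eq G hconn]
  have e2 : timeC G o = tc G o := by
    funext lam
    unfold timeC tc
    simp only [toInfinity_eq G hconn]
  obtain ⟨h1, h2, h3, h4, h5, h6⟩ := critical_curves V G hconn htrans o hL
  rw [e1, e2]
  exact ⟨h2, h5, h6, h1, h3, h4⟩

end Pool.Agent.Results.MP_c9ff92_pr.CriticalCurves
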